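import Pool.Agent.H80.PK.GStmts

/-!
# Row CMP: comparison of two completions
-/

set_option autoImplicit false

namespace Pool.PK

open MeasureTheory Filter Topology UniformSpace

theorem CMP (h1 : MKTStmt) (h2 : IOTStmt) (h3 : EXTStmt) (h4 : ENTStmt) (h5 : KERStmt) :
    CMPStmt := by
  intro C _ _ _ _ s t c hst hpow
  obtain ⟨ιs, hιs, dιs⟩ := h2 C s
  obtain ⟨ιt, hιt, dιt⟩ := h2 C t
  obtain ⟨φ, hφ, hφι, hφaug⟩ := h3 C s t c hst
  have hcomp : ∀ x, φ (ιs x) = iot t x := by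
    intro x
    rw [hιs, hφι]
  have hdense : DenseRange (fun x => φ (ιs x)) := by
    have e1 : (fun x => φ (ιs x)) = (fun x => ιt x) := by
      funext x
      rw [hcomp, hιt]
    rw [e1]
    exact dιt
  have hpow2 : ∀ (n : ℕ) (X : Mat (Unitization ℂ C) n),
      Tendsto (fun k : ℕ => ((X.map (fun u => φ (ιs u)) : Mat (Un (CP t)) n)) ^ k) atTop (𝓝 0) →
      Tendsto (fun k : ℕ => ((X.map (fun u => ιs u) : Mat (Un (CP s)) n)) ^ k) atTop (𝓝 0) := by
    intro n X hX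
    have e1 : (fun u => φ (ιs u)) = (fun u => iot t u) := funext hcomp
    have e2 : (fun u => ιs u) = (fun u => iot s u) := funext hιs
    rw [e1] at hX
    rw [e2]
    exact (h4 C s n X).2 (hpow n X ((h4 C t n X).1 hX))
  have hφ' : Continuous (φ : Un (CP s) →+* Un (CP t)) := hφ
  obtain ⟨k0, k1⟩ := h1 (Un (CP s)) (Un (CP t)) (Unitization ℂ C) ιs φ hφ' dιs hdense hpow2
  exact h5 (CP s) (CP t) φ hφ' hφaug k0 k1

end Pool.PK
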