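import Pool.Agent.H80.PK.FStmts

set_option autoImplicit false

namespace Pool.PK

open MeasureTheory
open scoped ENNReal

namespace OPE18

theorem opn_eq {G : Type} [Group G] [TopologicalSpace G] [IsTopologicalGroup G]
    [MeasurableSpace G] [BorelSpace G] (μ : Measure G) [μ.IsHaarMeasure] (p : ℝ≥0∞) (f : CG μ) :
    opn μ p f = opNorm μ p f.1 := by
  have h : {c : ℝ | 0 ≤ c ∧ ∀ g : CG μ, lpn μ p (f * g) ≤ c * lpn μ p g} =
      {c : ℝ | 0 ≤ c ∧ ∀ g : G → ℂ, InCc g →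
        (eLpNorm (conv μ f.1 g) p μ).toReal ≤ c * (eLpNorm g p μ).toReal} := by
    ext c
    constructor
    · intro hc
      exact ⟨hc.1, fun g hg => hc.2 ⟨g, hg⟩⟩
    · intro hc
      exact ⟨hc.1, fun g => hc.2 g.1 g.2⟩
  exact congrArg sInf h

end OPE18

theorem OPE : OPEStmt := by
  intro G _ _ _ _ _ _ _ μ _ p f
  refine ⟨OPE18.opn_eq μ p f, ?_, rfl⟩
  have h1 : opn μ p f = opNorm μ p f.1 := OPE18.opn_eq μ p f
  have h2 : opn μ p (str f) = opNorm μ p (fun x => (starRingEnd ℂ) (f.1 x⁻¹)) :=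
    OPE18.opn_eq μ p (str f)
  rw [h1, h2]
  rfl

end Pool.PK
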